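import Pool.Agent.P8H19.GP.Count

/-!
# Induced path number, radius and local independence: all graphs with `l(G) < 4`

For a finite connected graph `G` without 4-cycle, `path(G) ≥ rad(G) + min(⌊l(G)⌋, 3)`. Hence the
inequality `path(G) ≥ rad(G) + ⌊l(G)⌋ ^ cC₄(G)` holds for every finite connected graph with
`l(G) < 4`.

Idea. Let `G` have no 4-cycle and no induced path with `r + 3` vertices, `r = rad(G)`. Take a
geodesic from `u` to `h` with `d(u,h) ≥ r` and prolong it. A neighbour `w` of `h` which prolongs it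
has `l(w) ≤ 3`, and `l(w) ≤ 2` if `h` has a second neighbour, not adjacent to `w`, which prolongs
it. So a vertex `h` with `l(h) ≥ 4` has `l(h) - 1` neighbours with `l ≤ 2`, and these are different
for different `h`; this gives `l(G) < 3`.
-/

set_option autoImplicit false

namespace Pool.Agent.Results.MP_0d366e_co.LocalIndependenceBelowFour

open scoped BigOperators
open Pool.Agent.P8H19.GP (locInd C4F IP NoLong)

/-- `path(G)`: the largest number of vertices of an induced path. -/
noncomputable def pathNum {V : Type*} (G : SimpleGraph V) : ℕ :=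
  sSup {k : ℕ | Nonempty (SimpleGraph.pathGraph k ↪g G)}

/-- `l(G)`: the average of `l(v) = locInd G v`, the independence number of the subgraph induced on
the neighbourhood of `v`. -/
noncomputable def avgInd {V : Type*} [Fintype V] (G : SimpleGraph V) : ℝ :=
  (∑ v, (locInd G v : ℝ)) / (Fintype.card V : ℝ)

/-- the eccentricity of `v` -/
noncomputable def ecc {V : Type*} [Fintype V] (G : SimpleGraph V) (v : V) : ℕ :=
  Finset.univ.sup (fun u => G.dist v u)

/-- the radius -/
noncomputable def rad {V : Type*} [Fintype V] (G : SimpleGraph V) : ℕ :=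
  sInf (Set.range (ecc G))

/-- `G` contains a 4-cycle as a (not necessarily induced) subgraph. -/
def HasC4 {V : Type*} (G : SimpleGraph V) : Prop :=
  ∃ a b c d : V, [a, b, c, d].Nodup ∧ G.Adj a b ∧ G.Adj b c ∧ G.Adj c d ∧ G.Adj d a

open Classical in
/-- `cC₄(G)` -/
noncomputable def cC4 {V : Type*} (G : SimpleGraph V) : ℕ := if HasC4 G then 0 else 1

theorem result {V : Type*} [Fintype V] (G : SimpleGraph V) (hG : G.Connected) :
    (¬ HasC4 G → rad G + min ⌊avgInd G⌋₊ 3 ≤ pathNum G) ∧
    (avgInd G < 4 → (rad G : ℝ) + (⌊avgInd G⌋ : ℝ) ^ (cC4 G) ≤ (pathNum G : ℝ)) := by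
  classical
  have hne : Nonempty V := hG.nonempty
  have hcard : 0 < Fintype.card V := Fintype.card_pos
  have hcR : (0 : ℝ) < (Fintype.card V : ℝ) := by exact_mod_cast hcard
  have hbdd : BddAbove {k : ℕ | Nonempty (SimpleGraph.pathGraph k ↪g G)} := by
    refine ⟨Fintype.card V, ?_⟩
    rintro k ⟨e⟩
    simpa using Fintype.card_le_of_injective e e.injective
  have hIP : ∀ L : List V, IP G L → L.length ≤ pathNum G := fun L hL =>
    le_csSup hbdd (Pool.Agent.P8H19.GP.IP_emb hL)
  have hNL : ∀ k, ¬ (k ≤ pathNum G) → NoLong G k := by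
    intro k hk L hL
    have := hIP L hL
    omega
  have H : ∀ v, ∃ u, rad G ≤ G.dist u v := by
    intro v
    have h1 : rad G ≤ ecc G v := Nat.sInf_le ⟨v, rfl⟩
    obtain ⟨u, -, hu⟩ := Finset.exists_mem_eq_sup Finset.univ ⟨v, Finset.mem_univ v⟩
      (fun u => G.dist v u)
    refine ⟨u, ?_⟩
    rw [SimpleGraph.dist_comm]
    exact h1.trans (le_of_eq hu)
  have hC : ¬ HasC4 G → C4F G := by
    intro h a b c d hac hbd h1 h2 h3 h4
    apply h
    refine ⟨a, b, c, d, ?_, h1, h2, h3, h4⟩
    simp [hac, hbd, h1.ne, h2.ne, h3.ne, h4.ne']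
  have hone : rad G + 1 ≤ pathNum G := by
    obtain ⟨L, hL, hl⟩ := Pool.Agent.P8H19.GP.main_one hG H
    exact hl.trans (hIP L hL)
  have htwo : ¬ HasC4 G → (∃ v, 2 ≤ locInd G v) → rad G + 2 ≤ pathNum G := by
    rintro h ⟨v, hv⟩
    by_contra hc
    have := Pool.Agent.P8H19.GP.main_two hG (hC h) H (hNL _ hc) v
    omega
  have hnn : 0 ≤ avgInd G := by
    unfold avgInd
    positivity
  have h1 : ¬ HasC4 G → rad G + min ⌊avgInd G⌋₊ 3 ≤ pathNum G := by
    intro h
    rcases Nat.lt_or_ge ⌊avgInd G⌋₊ 2 with hlt | hge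
    · have : min ⌊avgInd G⌋₊ 3 ≤ 1 := (min_le_left _ _).trans (by omega)
      omega
    rcases Nat.lt_or_ge ⌊avgInd G⌋₊ 3 with hlt | hge3
    · have h2 : ∃ v, 2 ≤ locInd G v := by
        by_contra hc
        push Not at hc
        have hs : ∑ v, (locInd G v : ℝ) ≤ (Fintype.card V : ℝ) := by
          calc ∑ v, (locInd G v : ℝ) ≤ ∑ _v : V, (1 : ℝ) := by
                refine Finset.sum_le_sum ?_
                intro v _
                have := hc v
                exact_mod_cast (by omega : locInd G v ≤ 1)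
            _ = (Fintype.card V : ℝ) := by simp
        have ha : avgInd G ≤ 1 := by
          unfold avgInd
          rw [div_le_one hcR]
          exact hs
        have := Nat.floor_le_floor ha
        simp at this
        omega
      have := htwo h h2
      have h3 : min ⌊avgInd G⌋₊ 3 ≤ 2 := (min_le_left _ _).trans (by omega)
      omega
    · have h3 : min ⌊avgInd G⌋₊ 3 = 3 := min_eq_right hge3
      rw [h3]
      by_contra hc
      have hs := Pool.Agent.P8H19.GP.main_avg hG (hC h) H (hNL _ hc)
      have hs' : ∑ v, (locInd G v : ℝ) < 3 * (Fintype.card V : ℝ) := by exact_mod_cast hs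
      have ha : avgInd G < 3 := by
        unfold avgInd
        rw [div_lt_iff₀ hcR]
        exact hs'
      have hf : (3 : ℝ) ≤ avgInd G := (Nat.le_floor_iff hnn).1 hge3
      linarith
  refine ⟨h1, ?_⟩
  intro h4
  unfold cC4
  split_ifs with h
  · simp only [pow_zero]
    exact_mod_cast hone
  · rw [pow_one]
    have h5 := h1 h
    have h6 : ⌊avgInd G⌋₊ < 4 := (Nat.floor_lt hnn).2 (by exact_mod_cast h4)
    have h7 : min ⌊avgInd G⌋₊ 3 = ⌊avgInd G⌋₊ := min_eq_left (by omega)
    rw [h7] at h5
    have h8 : (⌊avgInd G⌋ : ℝ) = ((⌊avgInd G⌋₊ : ℕ) : ℝ) := by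
      rw [← natCast_floor_eq_intCast_floor hnn]
    rw [h8]
    exact_mod_cast h5

end Pool.Agent.Results.MP_0d366e_co.LocalIndependenceBelowFour
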